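import Mathlib

/-!
# Games on covers of prescribed order by the members of a lattice of sets

`IsKCover L k 𝒰`: the family `𝒰` of members of `L` is a `k`-cover, `k = 1, 2, …`, and `k = ⊤` means
an `ω`-cover. `S1 L f` is the selection principle `S_1(⟨O_{f(n)}⟩, Γ)` for the covers by members
of `L`, and `IsWinning L f σ` says that `σ` is a winning strategy of ONE in the game
`G_1(⟨O_{f(n)}⟩, Γ)`.
-/

namespace Pool.Agent.Y136.SG

open Set Filter

universe u

/-- The first `n` members of the sequence `p`, the latest first. -/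
def hist {α : Type u} (p : ℕ → α) : ℕ → List α
  | 0 => []
  | n + 1 => p n :: hist p n

/-- `L` is a lattice of subsets of `X` which contains the empty set and `X`. -/
structure IsSetLattice {X : Type u} (L : Set (Set X)) : Prop where
  empty_mem : ∅ ∈ L
  univ_mem : univ ∈ L
  inter_mem : ∀ U ∈ L, ∀ V ∈ L, U ∩ V ∈ L
  union_mem : ∀ U ∈ L, ∀ V ∈ L, U ∪ V ∈ L

/-- `𝒰` is a `k`-cover of `X` by members of `L`: it is a family of members of `L`, different from
the whole space, it covers `X`, and for `1 ≤ k < ∞` every subset of `X` with exactly `k` elements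
lies in one of its members; for `k = ⊤` this is required for all numbers of elements, so that the
`⊤`-covers are the `ω`-covers. -/
def IsKCover {X : Type u} (L : Set (Set X)) (k : ℕ∞) (𝒰 : Set (Set X)) : Prop :=
  (∀ U ∈ 𝒰, U ∈ L ∧ U ≠ univ) ∧ ⋃₀ 𝒰 = univ ∧
    ∀ n : ℕ, 1 ≤ n → (k = n ∨ k = ⊤) → ∀ F : Finset X, F.card = n → ∃ U ∈ 𝒰, (F : Set X) ⊆ U

/-- Every point belongs to all but finitely many of the sets `U n`. -/
def IsGamma {X : Type u} (U : ℕ → Set X) : Prop := ∀ x, ∀ᶠ n in atTop, x ∈ U n

/-- The selection principle `S_1(⟨O_{f(n)}⟩, Γ)` for covers by members of `L`. -/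
def S1 {X : Type u} (L : Set (Set X)) (f : ℕ → ℕ∞) : Prop :=
  ∀ 𝒰 : ℕ → Set (Set X), (∀ n, IsKCover L (f n) (𝒰 n)) →
    ∃ U : ℕ → Set X, (∀ n, U n ∈ 𝒰 n) ∧ IsGamma U

/-- The list `h` (latest first) of answers of TWO is possible when ONE follows `σ`. -/
def Legal {X : Type u} (σ : List (Set X) → Set (Set X)) : List (Set X) → Prop
  | [] => True
  | U :: h => Legal σ h ∧ U ∈ σ h

/-- `σ` is a strategy of ONE in the game `G_1(⟨O_{f(n)}⟩, Γ)`: after `n` innings, in which TWO has
given the answers in the list `h`, it plays an `f n`-cover `σ h` by members of `L`. -/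
def IsStrategy {X : Type u} (L : Set (Set X)) (f : ℕ → ℕ∞)
    (σ : List (Set X) → Set (Set X)) : Prop :=
  ∀ h, Legal σ h → IsKCover L (f h.length) (σ h)

/-- `σ` is a winning strategy of ONE: no play in which ONE follows `σ` is won by TWO. -/
def IsWinning {X : Type u} (L : Set (Set X)) (f : ℕ → ℕ∞)
    (σ : List (Set X) → Set (Set X)) : Prop :=
  IsStrategy L f σ ∧ ∀ U : ℕ → Set X, (∀ n, U n ∈ σ (hist U n)) → ¬ IsGamma U

/-- The game and the selection principle with covers all of whose small sets are caught. -/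
def Good {X : Type u} (L : Set (Set X)) (k : ℕ∞) (𝒰 : Set (Set X)) : Prop :=
  (∀ U ∈ 𝒰, U ∈ L ∧ U ≠ univ) ∧
    ∀ F : Finset X, (F.card : ℕ∞) ≤ k → ∃ U ∈ 𝒰, (F : Set X) ⊆ U

/-! ### Auxiliary facts on histories -/

theorem hist_length {α : Type u} (p : ℕ → α) (n : ℕ) : (hist p n).length = n := by
  induction n with
  | zero => rfl
  | succ n ih => simp [hist, ih]

theorem hist_eq_of {α : Type u} (d : α) (v : List α) (y : ℕ → α)
    (h : ∀ i < v.length, y i = v.reverse.getD i d) : hist y v.length = v := by
  induction v with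
  | nil => rfl
  | cons a w ih =>
    simp only [List.length_cons, hist, List.cons.injEq]
    constructor
    · rw [h w.length (by simp), List.reverse_cons, List.getD_append_right _ _ _ _ (by simp)]
      simp
    · apply ih
      intro i hi
      rw [h i (by simp; omega), List.reverse_cons, List.getD_append _ _ _ _ (by simpa using hi)]

theorem suffix_getD {α : Type u} (d : α) {a b : List α} (h : a <:+ b) (i : ℕ)
    (hi : i < a.length) : a.reverse.getD i d = b.reverse.getD i d := by
  obtain ⟨c, rfl⟩ := h
  rw [List.reverse_append, List.getD_append _ _ _ _ (by simpa using hi)]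

theorem exists_play {α : Type u} (T : ℕ → List α) (d : α) (h1 : ∀ n, T n <:+ T (n + 1))
    (h2 : ∀ n, n ≤ (T n).length) : ∃ z : ℕ → α, ∀ n, hist z (T n).length = T n := by
  have h3 : ∀ n m, n ≤ m → T n <:+ T m := by
    intro n m hnm
    induction m, hnm using Nat.le_induction with
    | base => exact List.suffix_refl _
    | succ m _ ih => exact ih.trans (h1 m)
  refine ⟨fun n => (T (n + 1)).reverse.getD n d, fun n => ?_⟩
  apply hist_eq_of d
  intro i hi
  rcases le_total n (i + 1) with h | h
  · exact (suffix_getD d (h3 _ _ h) i hi).symm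
  · exact suffix_getD d (h3 _ _ h) i (h2 (i + 1))

theorem hist_add {α : Type u} (p : ℕ → α) (k m : ℕ) :
    hist p (k + m) = hist (fun i => p (k + i)) m ++ hist p k := by
  induction m with
  | zero => rfl
  | succ m ih =>
    show p (k + m) :: hist p (k + m) = p (k + m) :: (hist (fun i => p (k + i)) m ++ hist p k)
    rw [ih]

theorem mem_hist {α : Type u} (p : ℕ → α) {i n : ℕ} (h : i < n) : p i ∈ hist p n := by
  induction n with
  | zero => omega
  | succ n ih =>
    rcases Nat.lt_succ_iff_lt_or_eq.mp h with h1 | h1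
    · exact List.mem_cons_of_mem _ (ih h1)
    · subst h1; exact List.mem_cons_self

theorem Legal.of_append {X : Type u} {σ : List (Set X) → Set (Set X)} {t s : List (Set X)}
    (h : Legal σ (t ++ s)) : Legal σ s := by
  induction t with
  | nil => exact h
  | cons a t ih => exact ih h.1

/-! ### Lattices of sets -/

variable {X : Type u} {L : Set (Set X)}

/-- The intersection of the sets in a list. -/
def It (t : List (Set X)) : Set X := {x | ∀ U ∈ t, x ∈ U}

theorem IsSetLattice.It_mem (hL : IsSetLattice L) (t : List (Set X)) (h : ∀ U ∈ t, U ∈ L) :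
    It t ∈ L := by
  induction t with
  | nil =>
    have : It ([] : List (Set X)) = univ := by ext x; simp [It]
    rw [this]; exact hL.univ_mem
  | cons a t ih =>
    have : It (a :: t) = a ∩ It t := by ext x; simp [It]
    rw [this]
    exact hL.inter_mem _ (h a List.mem_cons_self) _ (ih fun U hU => h U (List.mem_cons_of_mem _ hU))

theorem IsSetLattice.biInter_mem (hL : IsSetLattice L) {ι : Type*} {s : Set ι} (hs : s.Finite)
    {V : ι → Set X} (h : ∀ i ∈ s, V i ∈ L) : (⋂ i ∈ s, V i) ∈ L := by
  induction s, hs using Set.Finite.induction_on with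
  | empty => simpa using hL.univ_mem
  | insert _ _ ih =>
    rw [biInter_insert]
    exact hL.inter_mem _ (h _ (mem_insert _ _)) _ (ih fun i hi => h i (mem_insert_of_mem _ hi))

theorem IsSetLattice.biUnion_mem (hL : IsSetLattice L) {ι : Type*} {s : Set ι} (hs : s.Finite)
    {V : ι → Set X} (h : ∀ i ∈ s, V i ∈ L) : (⋃ i ∈ s, V i) ∈ L := by
  induction s, hs using Set.Finite.induction_on with
  | empty => simpa using hL.empty_mem
  | insert _ _ ih =>
    rw [biUnion_insert]
    exact hL.union_mem _ (h _ (mem_insert _ _)) _ (ih fun i hi => h i (mem_insert_of_mem _ hi))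

/-- The open sets of a topological space form a lattice. -/
theorem isSetLattice_open (X : Type u) [TopologicalSpace X] :
    IsSetLattice {U : Set X | IsOpen U} where
  empty_mem := isOpen_empty
  univ_mem := isOpen_univ
  inter_mem := fun _ hU _ hV => IsOpen.inter hU hV
  union_mem := fun _ hU _ hV => IsOpen.union hU hV

theorem Good.mono {k k' : ℕ∞} {𝒰 : Set (Set X)} (h : Good L k 𝒰) (hk : k' ≤ k) : Good L k' 𝒰 :=
  ⟨h.1, fun F hF => h.2 F (hF.trans hk)⟩

/-- In an infinite space, the `k`-covers are the families which catch all sets with at most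
`max k 1` elements. -/
theorem isKCover_iff_good [Infinite X] {k : ℕ∞} {𝒰 : Set (Set X)} :
    IsKCover L k 𝒰 ↔ Good L (max k 1) 𝒰 := by
  constructor
  · rintro ⟨h1, h2, h3⟩
    refine ⟨h1, fun F hF => ?_⟩
    have hone : ∀ F : Finset X, F.card ≤ 1 → ∃ U ∈ 𝒰, (F : Set X) ⊆ U := by
      intro F hF
      obtain ⟨F', hFF', hF'⟩ := Infinite.exists_superset_card_eq F 1 hF
      obtain ⟨x, hx⟩ := Finset.card_eq_one.mp hF'
      have hx2 : x ∈ ⋃₀ 𝒰 := by rw [h2]; exact mem_univ x
      obtain ⟨U, hU, hxU⟩ := hx2
      refine ⟨U, hU, fun y hy => ?_⟩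
      have := hFF' hy
      rw [hx, Finset.mem_singleton] at this
      rwa [this]
    rcases le_total k 1 with hk | hk
    · rw [max_eq_right hk] at hF
      exact hone F (by exact_mod_cast hF)
    · rw [max_eq_left hk] at hF
      rcases eq_or_ne k ⊤ with rfl | hk2
      · rcases Nat.eq_zero_or_pos F.card with h0 | h0
        · exact hone F (by omega)
        · exact h3 F.card h0 (Or.inr rfl) F rfl
      · obtain ⟨m, rfl⟩ := ENat.ne_top_iff_exists.mp hk2
        have hF2 : F.card ≤ m := by exact_mod_cast hF
        have hm : 1 ≤ m := by exact_mod_cast hk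
        obtain ⟨F', hFF', hF'⟩ := Infinite.exists_superset_card_eq F m hF2
        obtain ⟨U, hU, hFU⟩ := h3 m hm (Or.inl rfl) F' hF'
        exact ⟨U, hU, fun y hy => hFU (hFF' hy)⟩
  · rintro ⟨h1, h2⟩
    refine ⟨h1, ?_, ?_⟩
    · ext x
      simp only [mem_sUnion, mem_univ, iff_true]
      obtain ⟨U, hU, hxU⟩ := h2 {x} (by simp)
      exact ⟨U, hU, hxU (by simp)⟩
    · intro n hn hk F hF
      apply h2 F
      rw [hF]
      rcases hk with rfl | rfl
      · exact le_max_left _ _
      · simp

end Pool.Agent.Y136.SG
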