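import Pool.Agent.Y136.SG.Basic

/-!
# Beating the strategies of ONE
-/

namespace Pool.Agent.Y136.SG

open Set Filter

universe u

variable {X : Type u} {L : Set (Set X)}

/-- The selection principle for covers which catch the small sets. -/
def S1G (L : Set (Set X)) (g : ℕ → ℕ∞) : Prop :=
  ∀ 𝒰 : ℕ → Set (Set X), (∀ n, Good L (g n) (𝒰 n)) →
    ∃ U : ℕ → Set X, (∀ n, U n ∈ 𝒰 n) ∧ IsGamma U

/-- Strategies of ONE which play covers that catch the small sets. -/
def StratG (L : Set (Set X)) (g : ℕ → ℕ∞) (σ : List (Set X) → Set (Set X)) : Prop :=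
  ∀ h, Legal σ h → Good L (g h.length) (σ h)

variable {g : ℕ → ℕ∞} {σ : List (Set X) → Set (Set X)}

theorem Legal.mem_L (hσ : StratG L g σ) {t s : List (Set X)} (h : Legal σ (t ++ s)) :
    ∀ U ∈ t, U ∈ L ∧ U ≠ univ := by
  induction t with
  | nil => intro U hU; simp at hU
  | cons a t ih =>
    intro U hU
    rcases List.mem_cons.mp hU with rfl | hU
    · exact (hσ _ h.1).1 _ h.2
    · exact ih h.1 U hU

theorem exists_legal (hσ : StratG L g σ) (n : ℕ) : ∃ h, Legal σ h ∧ h.length = n := by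
  induction n with
  | zero => exact ⟨[], trivial, rfl⟩
  | succ n ih =>
    obtain ⟨h, h1, h2⟩ := ih
    obtain ⟨U, hU, _⟩ := (hσ h h1).2 ∅ (by simp)
    exact ⟨U :: h, ⟨h1, hU⟩, by simp [h2]⟩

/-- A small set is covered by the members of long legal extensions. -/
theorem cover_path (hg : Monotone g) (hσ : StratG L g σ) {s : List (Set X)}
    (hs : Legal σ s) (F : Finset X) (hF : (F.card : ℕ∞) ≤ g s.length) (l : ℕ) :
    ∃ t : List (Set X), t.length = l ∧ Legal σ (t ++ s) ∧ (F : Set X) ⊆ It t := by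
  induction l with
  | zero => exact ⟨[], rfl, hs, fun x _ U hU => by simp at hU⟩
  | succ l ih =>
    obtain ⟨t, h1, h2, h3⟩ := ih
    have hlen : g s.length ≤ g (t ++ s).length := hg (by rw [List.length_append]; omega)
    obtain ⟨U, hU, hFU⟩ := (hσ _ h2).2 F (hF.trans hlen)
    refine ⟨U :: t, by simp [h1], ⟨h2, hU⟩, fun x hx V hV => ?_⟩
    rcases List.mem_cons.mp hV with rfl | hV
    · exact hFU hx
    · exact h3 hx V hV

/-- Finitely many extensions of every length catch all small sets. -/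
theorem exists_catch (hL : IsSetLattice L) (hg : Monotone g) (hX : S1G L g)
    (hσ : StratG L g σ) {s : List (Set X)} (hs : Legal σ s) :
    ∃ D : ℕ → Set (List (Set X)), (∀ l, (D l).Finite) ∧
      (∀ l, ∀ t ∈ D l, t.length = l + 1 ∧ Legal σ (t ++ s)) ∧
      ∀ F : Finset X, (F.card : ℕ∞) ≤ g s.length → ∃ l, ∃ t ∈ D l, (F : Set X) ⊆ It t := by
  classical
  by_cases hfin : ∃ (l : ℕ) (c : Set (List (Set X))), c.Finite ∧
      (∀ t ∈ c, t.length = l + 1 ∧ Legal σ (t ++ s)) ∧
      ∀ F : Finset X, (F.card : ℕ∞) ≤ g s.length → ∃ t ∈ c, (F : Set X) ⊆ It t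
  · obtain ⟨l, c, h1, h2, h3⟩ := hfin
    refine ⟨fun i => if i = l then c else ∅, fun i => ?_, fun i t ht => ?_, fun F hF => ?_⟩
    · by_cases hi : i = l
      · simp only [hi, if_true]; exact h1
      · simp only [hi, if_false]; exact finite_empty
    · by_cases hi : i = l
      · subst hi; simp only [if_true] at ht; exact h2 t ht
      · simp only [hi, if_false] at ht; exact absurd ht (notMem_empty t)
    · obtain ⟨t, ht, hFt⟩ := h3 F hF
      exact ⟨l, t, by simpa using ht, hFt⟩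
  · let WW : ℕ → Set (Set X) := fun l => {W | W ∈ L ∧ ∃ c : Set (List (Set X)), c.Finite ∧
      (∀ t ∈ c, t.length = l + 1 ∧ Legal σ (t ++ s)) ∧
      ∀ F : Finset X, (F.card : ℕ∞) ≤ g s.length → (F : Set X) ⊆ W →
        ∃ t ∈ c, (F : Set X) ⊆ It t}
    have hne : ∀ l, ∀ W ∈ WW l, W ≠ univ := by
      rintro l W ⟨_, c, h1, h2, h3⟩ rfl
      exact hfin ⟨l, c, h1, h2, fun F hF => h3 F hF (subset_univ _)⟩
    have homega : ∀ l (G : Finset X), ∃ W ∈ WW l, (G : Set X) ⊆ W := by
      intro l G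
      have h1 : ∀ F : Finset X, ∃ t : List (Set X), (F.card : ℕ∞) ≤ g s.length →
          t.length = l + 1 ∧ Legal σ (t ++ s) ∧ (F : Set X) ⊆ It t := by
        intro F
        by_cases hF : (F.card : ℕ∞) ≤ g s.length
        · obtain ⟨t, ht⟩ := cover_path hg hσ hs F hF (l + 1)
          exact ⟨t, fun _ => ht⟩
        · exact ⟨[], fun h => absurd h hF⟩
      choose f hf using h1
      let GG : Finset (Finset X) := G.powerset.filter fun F => (F.card : ℕ∞) ≤ g s.length
      let c : Set (List (Set X)) := f '' (GG : Set (Finset X))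
      have hc : c.Finite := (Finset.finite_toSet GG).image f
      have hc2 : ∀ t ∈ c, t.length = l + 1 ∧ Legal σ (t ++ s) := by
        rintro t ⟨F, hF, rfl⟩
        have := (Finset.mem_filter.mp (Finset.mem_coe.mp hF)).2
        exact ⟨(hf F this).1, (hf F this).2.1⟩
      refine ⟨⋃ x ∈ G, ⋂ t ∈ {t ∈ c | x ∈ It t}, It t, ⟨?_, c, hc, hc2, ?_⟩, ?_⟩
      · refine hL.biUnion_mem (s := (G : Set X)) G.finite_toSet fun x _ =>
          hL.biInter_mem (hc.subset (sep_subset c _)) fun t ht => ?_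
        exact hL.It_mem t fun U hU => (Legal.mem_L hσ (hc2 t ht.1).2 U hU).1
      · intro F hF hFW
        have h2 : ∀ y : X, ∃ x : X, y ∈ F → x ∈ G ∧ ∀ t ∈ c, x ∈ It t → y ∈ It t := by
          intro y
          by_cases hy : y ∈ F
          · have h3 := hFW hy
            simp only [mem_iUnion, mem_iInter] at h3
            obtain ⟨x, hx, h4⟩ := h3
            exact ⟨x, fun _ => ⟨hx, fun t ht hxt => h4 t ⟨ht, hxt⟩⟩⟩
          · exact ⟨y, fun h => absurd h hy⟩
        choose k hk using h2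
        have h5 : F.image k ∈ GG := by
          rw [Finset.mem_filter, Finset.mem_powerset]
          refine ⟨fun x hx => ?_, le_trans (by exact_mod_cast Finset.card_image_le) hF⟩
          obtain ⟨y, hy, rfl⟩ := Finset.mem_image.mp hx
          exact (hk y hy).1
        refine ⟨f (F.image k), ⟨F.image k, Finset.mem_coe.mpr h5, rfl⟩, fun y hy => ?_⟩
        apply (hk y hy).2 _ ⟨F.image k, Finset.mem_coe.mpr h5, rfl⟩
        exact (hf (F.image k) (Finset.mem_filter.mp h5).2).2.2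
          (Finset.mem_coe.mpr (Finset.mem_image_of_mem k hy))
      · intro x hx
        refine mem_biUnion hx ?_
        simp only [mem_iInter]
        exact fun t ht => ht.2
    obtain ⟨W, hW, hWg⟩ := hX WW (fun n => ⟨fun W hW => ⟨hW.1, hne n W hW⟩,
      fun F _ => homega n F⟩)
    choose hWo c hc1 hc2 hc3 using hW
    refine ⟨c, hc1, hc2, fun F hF => ?_⟩
    have h1 : ∀ᶠ n in atTop, ∀ x ∈ F, x ∈ W n := by
      rw [Filter.eventually_all_finset]
      exact fun x _ => hWg x
    obtain ⟨n, hn⟩ := h1.exists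
    obtain ⟨t, ht, hFt⟩ := hc3 n F hF hn
    exact ⟨n, t, ht, hFt⟩

/-- The finitely branching set of histories. -/
inductive InD (D : List (Set X) → ℕ → Set (List (Set X))) : List (Set X) → Prop
  | nil : InD D []
  | step (s t : List (Set X)) (l : ℕ) : InD D s → t ∈ D s l → InD D (t ++ s)

/-- Beating a strategy of ONE, monotone orders. -/
theorem exists_win_mono (hL : IsSetLattice L) (hg : Monotone g) (hX : S1G L g)
    (hσ : StratG L g σ) :
    ∃ U : ℕ → Set X, (∀ n, U n ∈ σ (hist U n)) ∧ IsGamma U := by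
  classical
  have hcat : ∀ s : List (Set X), ∃ D : ℕ → Set (List (Set X)), Legal σ s → (∀ l, (D l).Finite) ∧
      (∀ l, ∀ t ∈ D l, t.length = l + 1 ∧ Legal σ (t ++ s)) ∧
      ∀ F : Finset X, (F.card : ℕ∞) ≤ g s.length → ∃ l, ∃ t ∈ D l, (F : Set X) ⊆ It t := by
    intro s
    by_cases hs : Legal σ s
    · obtain ⟨D, hD⟩ := exists_catch hL hg hX hσ hs
      exact ⟨D, fun _ => hD⟩
    · exact ⟨fun _ => ∅, fun h => absurd h hs⟩
  choose D hD using hcat
  have hlegal : ∀ s, InD D s → Legal σ s := by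
    intro s hs
    induction hs with
    | nil => trivial
    | step s t l _ ht ih => exact ((hD s ih).2.1 l t ht).2
  have hfinite : ∀ n, {s | InD D s ∧ s.length = n}.Finite := by
    intro n
    induction n using Nat.strong_induction_on with
    | _ n ih =>
      have hsub : {s | InD D s ∧ s.length = n} ⊆ {[]} ∪ ⋃ k ∈ Iio n,
          ⋃ s ∈ {s | InD D s ∧ s.length = k}, (fun t => t ++ s) '' (D s (n - k - 1)) := by
        rintro e ⟨he, hlen⟩
        cases he with
        | nil => exact Or.inl rfl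
        | step s t l hs ht =>
          right
          have h1 := ((hD s (hlegal s hs)).2.1 l t ht).1
          rw [List.length_append] at hlen
          have h2 : s.length < n := by omega
          refine mem_biUnion (show s.length ∈ Iio n from h2) ?_
          refine mem_biUnion (show s ∈ {s' | InD D s' ∧ s'.length = s.length} from ⟨hs, rfl⟩) ?_
          refine ⟨t, ?_, rfl⟩
          have h3 : n - s.length - 1 = l := by omega
          rw [h3]
          exact ht
      refine Finite.subset ((finite_singleton _).union ?_) hsub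
      refine (finite_Iio n).biUnion fun k hk => (ih k hk).biUnion fun s hs => ?_
      exact ((hD s (hlegal s hs.1)).1 _).image _
  -- the covers to which the selection principle is applied
  let PP : ℕ → Set (Set X) := fun m => {O | ∃ R : List (Set X) → List (Set X),
    (∀ s, InD D s → s.length = m → ∃ l, R s ∈ D s l) ∧
      O = ⋂ s ∈ {s | InD D s ∧ s.length = m}, It (R s)}
  have hPP : ∀ m (F : Finset X), (F.card : ℕ∞) ≤ g m → ∃ O ∈ PP m, (F : Set X) ⊆ O := by
    intro m F hF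
    have h1 : ∀ s : List (Set X), ∃ t : List (Set X), InD D s → s.length = m →
        (∃ l, t ∈ D s l) ∧ (F : Set X) ⊆ It t := by
      intro s
      by_cases hs : InD D s ∧ s.length = m
      · obtain ⟨l, t, ht, hFt⟩ := (hD s (hlegal s hs.1)).2.2 F (by rw [hs.2]; exact hF)
        exact ⟨t, fun _ _ => ⟨⟨l, ht⟩, hFt⟩⟩
      · exact ⟨[], fun h h' => absurd ⟨h, h'⟩ hs⟩
    choose R hR using h1
    refine ⟨_, ⟨R, fun s hs hm => (hR s hs hm).1, rfl⟩, ?_⟩
    intro x hx
    simp only [mem_iInter]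
    exact fun s hs => (hR s hs.1 hs.2).2 hx
  have hleg := fun n => exists_legal hσ n
  choose hh hh1 hh2 using hleg
  let QQ : ℕ → Set (Set X) := fun m => if ∃ s, InD D s ∧ s.length = m then PP m else σ (hh m)
  have hQQ : ∀ m, Good L (g m) (QQ m) := by
    intro m
    by_cases hm : ∃ s, InD D s ∧ s.length = m
    · have hQ : QQ m = PP m := by simp only [QQ, if_pos hm]
      rw [hQ]
      obtain ⟨s, hs, hsm⟩ := hm
      refine ⟨?_, fun F hF => hPP m F hF⟩
      rintro O ⟨R, hR, rfl⟩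
      constructor
      · refine hL.biInter_mem (hfinite m) fun s hs => ?_
        obtain ⟨l, hl⟩ := hR s hs.1 hs.2
        exact hL.It_mem _ fun U hU =>
          (Legal.mem_L hσ ((hD s (hlegal s hs.1)).2.1 l _ hl).2 U hU).1
      · intro huniv
        obtain ⟨l, hl⟩ := hR s hs hsm
        have h1 := (hD s (hlegal s hs)).2.1 l _ hl
        obtain ⟨U, hU⟩ : ∃ U, U ∈ R s := by
          cases hRs : R s with
          | nil => rw [hRs] at h1; simp at h1
          | cons U t => exact ⟨U, List.mem_cons_self⟩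
        apply (Legal.mem_L hσ h1.2 U hU).2
        apply eq_univ_of_forall
        intro x
        have hx : x ∈ ⋂ s ∈ {s | InD D s ∧ s.length = m}, It (R s) := by
          rw [huniv]; exact mem_univ x
        simp only [mem_iInter] at hx
        exact hx s ⟨hs, hsm⟩ U hU
    · have hQ : QQ m = σ (hh m) := by simp only [QQ, if_neg hm]
      rw [hQ]
      have := hσ (hh m) (hh1 m)
      rwa [hh2 m] at this
  obtain ⟨O, hO, hOg⟩ := hX QQ hQQ
  have hR : ∀ m, ∃ R : List (Set X) → List (Set X), (∃ s, InD D s ∧ s.length = m) →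
      (∀ s, InD D s → s.length = m → ∃ l, R s ∈ D s l) ∧
        O m = ⋂ s ∈ {s | InD D s ∧ s.length = m}, It (R s) := by
    intro m
    by_cases hm : ∃ s, InD D s ∧ s.length = m
    · have h1 := hO m
      have hQ : QQ m = PP m := by simp only [QQ, if_pos hm]
      rw [hQ] at h1
      obtain ⟨R, hR1, hR2⟩ := h1
      exact ⟨R, fun _ => ⟨hR1, hR2⟩⟩
    · exact ⟨id, fun h => absurd h hm⟩
  choose R hR using hR
  let S : ℕ → List (Set X) := fun j => Nat.rec [] (fun _ s => R s.length s ++ s) j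
  have hS : ∀ j, S (j + 1) = R (S j).length (S j) ++ S j := fun j => rfl
  have hSD : ∀ j, InD D (S j) := by
    intro j
    induction j with
    | zero => exact InD.nil
    | succ j ih =>
      obtain ⟨l, hl⟩ := (hR (S j).length ⟨S j, ih, rfl⟩).1 (S j) ih rfl
      rw [hS]
      exact InD.step _ _ l ih hl
  have hSlen : ∀ j, (S j).length < (S (j + 1)).length := by
    intro j
    obtain ⟨l, hl⟩ := (hR (S j).length ⟨S j, hSD j, rfl⟩).1 (S j) (hSD j) rfl
    have h1 := ((hD (S j) (hlegal _ (hSD j))).2.1 l _ hl).1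
    rw [hS, List.length_append]
    omega
  have hSge : ∀ j, j ≤ (S j).length := by
    intro j
    induction j with
    | zero => exact Nat.zero_le _
    | succ j ih => have := hSlen j; omega
  obtain ⟨U, hU⟩ := exists_play S ∅ (fun j => by rw [hS]; exact List.suffix_append _ _) hSge
  refine ⟨U, ?_, ?_⟩
  · intro n
    have h1 : Legal σ (hist U (n + 1)) := by
      have h2 := hlegal _ (hSD (n + 1))
      rw [← hU (n + 1)] at h2
      obtain ⟨k, hk⟩ := Nat.exists_eq_add_of_le (hSge (n + 1))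
      rw [hk, hist_add] at h2
      exact h2.of_append
    exact h1.2
  · intro x
    obtain ⟨M, hM⟩ := eventually_atTop.mp (hOg x)
    rw [eventually_atTop]
    refine ⟨(S M).length, fun n hn => ?_⟩
    -- the segment containing `n`
    have hex : ∃ j, n < (S j).length := ⟨n + 1, lt_of_lt_of_le (Nat.lt_succ_self n) (hSge (n + 1))⟩
    have hj1 := Nat.find_spec hex
    have hj0 : Nat.find hex ≠ 0 := by
      intro h0
      rw [h0] at hj1
      exact absurd hj1 (Nat.not_lt_zero n)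
    obtain ⟨j, hj⟩ := Nat.exists_eq_succ_of_ne_zero hj0
    have hj2 : (S j).length ≤ n := by
      have := Nat.find_min hex (m := j) (by omega)
      omega
    rw [hj, Nat.succ_eq_add_one] at hj1
    have hmono : StrictMono fun j => (S j).length := strictMono_nat_of_lt_succ hSlen
    have hMj : M ≤ j := by
      by_contra hcon
      have h1 : j + 1 ≤ M := by omega
      have h2 : (S (j + 1)).length ≤ (S M).length := hmono.monotone h1
      omega
    have hxO := hM (S j).length (hMj.trans (hSge j))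
    have hR2 := (hR (S j).length ⟨S j, hSD j, rfl⟩).2
    rw [hR2] at hxO
    simp only [mem_iInter] at hxO
    have hxR := hxO (S j) ⟨hSD j, rfl⟩
    apply hxR
    -- `U n` belongs to the new segment
    obtain ⟨k, hk⟩ := Nat.exists_eq_add_of_le (hSlen j).le
    have h3 := hU (j + 1)
    rw [hk, hist_add, hU j, hS] at h3
    have h4 := List.append_cancel_right h3
    rw [← h4]
    have h5 : U n = (fun i => U ((S j).length + i)) (n - (S j).length) := by
      show U n = U ((S j).length + (n - (S j).length))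
      congr 1
      omega
    rw [h5]
    exact mem_hist _ (by omega)

/-- Changing the orders: from `f` to `g`, where `f (m n) ≤ g n` for large `n` and `m n` tends
to infinity. -/
theorem S1G.reindex (hL : IsSetLattice L) {f g : ℕ → ℕ∞} {m : ℕ → ℕ}
    (hm : Tendsto m atTop atTop) (hfg : ∀ᶠ n in atTop, f (m n) ≤ g n)
    (hne : ∀ n, ∃ 𝒲, Good L (f n) 𝒲) (hX : S1G L f) : S1G L g := by
  classical
  intro 𝒱 h𝒱
  obtain ⟨N, hN⟩ := eventually_atTop.mp hfg
  choose 𝒲 h𝒲 using hne
  have h0 : ∀ n, ∃ V, V ∈ 𝒱 n := fun n => by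
    obtain ⟨V, hV, _⟩ := (h𝒱 n).2 ∅ (by simp)
    exact ⟨V, hV⟩
  choose V0 hV0 using h0
  let 𝒬 : ℕ → Set (Set X) := fun j => if ∃ n, N ≤ n ∧ m n = j then
    {O | ∃ V : ℕ → Set X, (∀ n, N ≤ n → m n = j → V n ∈ 𝒱 n) ∧
      O = ⋂ n ∈ {n | N ≤ n ∧ m n = j}, V n} else 𝒲 j
  have hfin : ∀ j, {n | N ≤ n ∧ m n = j}.Finite := fun j => by
    obtain ⟨K, hK⟩ := eventually_atTop.mp (hm.eventually_gt_atTop j)
    refine (finite_Iio K).subset fun n hn => ?_
    by_contra hcon
    have h1 := hK n (not_lt.mp hcon)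
    have h2 : m n = j := hn.2
    omega
  have h𝒬 : ∀ j, Good L (f j) (𝒬 j) := by
    intro j
    by_cases hj : ∃ n, N ≤ n ∧ m n = j
    · have hQ : 𝒬 j = {O | ∃ V : ℕ → Set X, (∀ n, N ≤ n → m n = j → V n ∈ 𝒱 n) ∧
          O = ⋂ n ∈ {n | N ≤ n ∧ m n = j}, V n} := by simp only [𝒬, if_pos hj]
      rw [hQ]
      obtain ⟨n0, hNn0, hn0⟩ := hj
      refine ⟨?_, fun F hF => ?_⟩
      · rintro O ⟨V, hV, rfl⟩
        constructor
        · exact hL.biInter_mem (hfin j) fun n hn => ((h𝒱 n).1 _ (hV n hn.1 hn.2)).1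
        · intro huniv
          apply ((h𝒱 n0).1 _ (hV n0 hNn0 hn0)).2
          apply eq_univ_of_forall
          intro x
          have hx : x ∈ ⋂ n ∈ {n | N ≤ n ∧ m n = j}, V n := by rw [huniv]; exact mem_univ x
          exact mem_iInter₂.mp hx n0 ⟨hNn0, hn0⟩
      · have h1 : ∀ n, ∃ V : Set X, N ≤ n → m n = j → V ∈ 𝒱 n ∧ (F : Set X) ⊆ V := by
          intro n
          by_cases hn : N ≤ n ∧ m n = j
          · have hFn : (F.card : ℕ∞) ≤ g n := hF.trans (by rw [← hn.2]; exact hN n hn.1)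
            obtain ⟨V, hV, hFV⟩ := (h𝒱 n).2 F hFn
            exact ⟨V, fun _ _ => ⟨hV, hFV⟩⟩
          · exact ⟨∅, fun h h' => absurd ⟨h, h'⟩ hn⟩
        choose V hV using h1
        refine ⟨_, ⟨V, fun n hn hn' => (hV n hn hn').1, rfl⟩, fun x hx => ?_⟩
        exact mem_iInter₂.mpr fun n hn => (hV n hn.1 hn.2).2 hx
    · have hQ : 𝒬 j = 𝒲 j := by simp only [𝒬, if_neg hj]
      rw [hQ]
      exact h𝒲 j
  obtain ⟨O, hO, hOg⟩ := hX 𝒬 h𝒬
  have h2 : ∀ n, ∃ V ∈ 𝒱 n, N ≤ n → O (m n) ⊆ V := by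
    intro n
    by_cases hn : N ≤ n
    · have h3 := hO (m n)
      have hQ : 𝒬 (m n) = {O | ∃ V : ℕ → Set X, (∀ k, N ≤ k → m k = m n → V k ∈ 𝒱 k) ∧
          O = ⋂ k ∈ {k | N ≤ k ∧ m k = m n}, V k} := by
        simp only [𝒬, if_pos (⟨n, hn, rfl⟩ : ∃ k, N ≤ k ∧ m k = m n)]
      rw [hQ] at h3
      obtain ⟨V, hV, hOV⟩ := h3
      refine ⟨V n, hV n hn rfl, fun _ x hx => ?_⟩
      rw [hOV] at hx
      exact mem_iInter₂.mp hx n ⟨hn, rfl⟩
    · exact ⟨V0 n, hV0 n, fun h => absurd h hn⟩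
  choose V hV hOV using h2
  refine ⟨V, hV, fun x => ?_⟩
  filter_upwards [hm.eventually (hOg x), eventually_ge_atTop N] with n hn hn2
  exact hOV n hn2 hn

/-- Beating a strategy of ONE, all orders. -/
theorem exists_win (hL : IsSetLattice L) {f : ℕ → ℕ∞} (hX : S1G L f) (hσ : StratG L f σ) :
    ∃ U : ℕ → Set X, (∀ n, U n ∈ σ (hist U n)) ∧ IsGamma U := by
  have hmin : ∀ n, ∃ m, n ≤ m ∧ ∀ m', n ≤ m' → f m ≤ f m' := by
    intro n
    obtain ⟨a, ⟨m, hm, rfl⟩, h2⟩ := WellFounded.has_min (wellFounded_lt (α := ℕ∞))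
      (f '' Ici n) ⟨f n, n, self_mem_Ici, rfl⟩
    exact ⟨m, hm, fun m' hm' => not_lt.mp (h2 _ ⟨m', hm', rfl⟩)⟩
  choose m hm hmin using hmin
  have hmono : Monotone fun n => f (m n) := fun a b hab => hmin a _ (hab.trans (hm b))
  refine exists_win_mono hL hmono (S1G.reindex hL (tendsto_atTop_mono hm tendsto_id)
    (Eventually.of_forall fun n => le_rfl) (fun n => ?_) hX) fun h hh =>
    (hσ h hh).mono (hmin _ _ le_rfl)
  obtain ⟨h, h1, h2⟩ := exists_legal hσ n
  exact ⟨σ h, by rw [← h2]; exact hσ h h1⟩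

/-! ### Comparison of the orders -/

theorem S1G.of_tendsto (hL : IsSetLattice L) {f : ℕ → ℕ∞} (h1 : ∀ n, 1 ≤ f n)
    (hf : ∀ k : ℕ, ∀ᶠ n in atTop, (k : ℕ∞) ≤ f n) (hX : S1G L fun n => (n : ℕ∞) + 1) :
    S1G L f := by
  classical
  intro 𝒰 h𝒰
  let m : ℕ → ℕ := fun n => Nat.findGreatest (fun k => (k : ℕ∞) + 1 ≤ f n) n
  have hm1 : ∀ n, ((m n : ℕ) : ℕ∞) + 1 ≤ f n := fun n =>
    Nat.findGreatest_spec (P := fun k => (k : ℕ∞) + 1 ≤ f n) (Nat.zero_le n) (by simpa using h1 n)
  have hm2 : Tendsto m atTop atTop := by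
    rw [tendsto_atTop]
    intro K
    filter_upwards [hf (K + 1), eventually_ge_atTop K] with n hn hn2
    exact Nat.le_findGreatest hn2 (by exact_mod_cast hn)
  refine S1G.reindex hL hm2 (Eventually.of_forall hm1) (fun n => ?_) hX 𝒰 h𝒰
  obtain ⟨j, hj⟩ := (hf (n + 1)).exists
  exact ⟨𝒰 j, (h𝒰 j).mono (by exact_mod_cast hj)⟩

theorem S1G.to_standard (hL : IsSetLattice L) {f : ℕ → ℕ∞}
    (hf : ∃ᶠ n in atTop, f n ≠ ⊤) (hX : S1G L f) : S1G L fun n => (n : ℕ∞) + 1 := by
  classical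
  intro 𝒱 h𝒱
  have hne : ∀ k : ℕ∞, ∃ 𝒲, Good L k 𝒲 := by
    intro k
    refine ⟨⋃ n, 𝒱 n, ?_, fun F hF => ?_⟩
    · intro U hU
      obtain ⟨n, hn⟩ := mem_iUnion.mp hU
      exact (h𝒱 n).1 U hn
    · obtain ⟨U, hU, hFU⟩ := (h𝒱 F.card).2 F (show (F.card : ℕ∞) ≤ (F.card : ℕ∞) + 1 from le_self_add)
      exact ⟨U, mem_iUnion.mpr ⟨_, hU⟩, hFU⟩
  let m : ℕ → ℕ := fun n => Nat.findGreatest (fun j => f j ≤ (n : ℕ∞) + 1) n
  have hbig : ∀ J : ℕ, ∀ᶠ n in atTop, J ≤ m n ∧ f (m n) ≤ (n : ℕ∞) + 1 := by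
    intro J
    obtain ⟨j, hj, hjf⟩ := (frequently_atTop.mp hf) J
    obtain ⟨v, hv⟩ := ENat.ne_top_iff_exists.mp hjf
    filter_upwards [eventually_ge_atTop (max j v)] with n hn
    have h1 : f j ≤ (n : ℕ∞) + 1 := by
      rw [← hv]
      exact_mod_cast (le_trans (le_max_right j v) hn).trans (Nat.le_succ n)
    have h2 : j ≤ n := (le_max_left j v).trans hn
    exact ⟨hj.trans (Nat.le_findGreatest h2 h1),
      Nat.findGreatest_spec (P := fun j => f j ≤ (n : ℕ∞) + 1) h2 h1⟩
  refine S1G.reindex hL (tendsto_atTop.mpr fun J => (hbig J).mono fun n hn => hn.1)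
    ((hbig 0).mono fun n hn => hn.2) (fun n => hne _) hX 𝒱 h𝒱

theorem S1G.iff_omega (hL : IsSetLattice L) {f : ℕ → ℕ∞} (hf : ∀ᶠ n in atTop, f n = ⊤) :
    S1G L f ↔ S1G L fun _ => ⊤ := by
  constructor
  · intro hX 𝒱 h𝒱
    exact S1G.reindex hL tendsto_id (Eventually.of_forall fun n => le_top)
      (fun n => ⟨𝒱 0, (h𝒱 0).mono le_top⟩) hX 𝒱 h𝒱
  · intro hX 𝒰 h𝒰
    obtain ⟨j, hj⟩ := hf.exists
    exact S1G.reindex hL tendsto_id (hf.mono fun n hn => by simp [hn])
      (fun n => ⟨𝒰 j, by have := h𝒰 j; rwa [hj] at this⟩) hX 𝒰 h𝒰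

theorem not_S1G [Infinite X] (hsep : ∀ x : X, ({x}ᶜ : Set X) ∈ L) {f : ℕ → ℕ∞} {k : ℕ}
    (hf : ∃ᶠ n in atTop, f n ≤ k) : ¬ S1G L f := by
  classical
  intro hX
  obtain ⟨S, hS⟩ := Infinite.exists_subset_card_eq X (k + 1)
  have hne : ∀ x : X, ({x}ᶜ : Set X) ≠ univ := fun x h => by
    have : x ∈ ({x}ᶜ : Set X) := by rw [h]; exact mem_univ x
    exact this rfl
  obtain ⟨U, hU, hUg⟩ := hX (fun n => if f n ≤ k then {V | ∃ x ∈ S, V = {x}ᶜ}
    else {V | ∃ x : X, V = {x}ᶜ}) (by
      intro n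
      by_cases hn : f n ≤ k
      · simp only [if_pos hn]
        refine ⟨?_, fun F hF => ?_⟩
        · rintro V ⟨x, _, rfl⟩
          exact ⟨hsep x, hne x⟩
        · have hF2 : F.card ≤ k := by exact_mod_cast hF.trans hn
          obtain ⟨x, hx, hxF⟩ : ∃ x ∈ S, x ∉ F := by
            by_contra hcon
            push Not at hcon
            have := Finset.card_le_card (show S ⊆ F from hcon)
            omega
          exact ⟨_, ⟨x, hx, rfl⟩, fun y hy hyx => hxF (by
            rw [mem_singleton_iff] at hyx; rw [← hyx]; exact hy)⟩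
      · simp only [if_neg hn]
        refine ⟨?_, fun F hF => ?_⟩
        · rintro V ⟨x, rfl⟩
          exact ⟨hsep x, hne x⟩
        · obtain ⟨x, hxF⟩ := Infinite.exists_notMem_finset F
          exact ⟨_, ⟨x, rfl⟩, fun y hy hyx => hxF (by
            rw [mem_singleton_iff] at hyx; rw [← hyx]; exact hy)⟩)
  have h1 : ∀ᶠ n in atTop, ∀ x ∈ S, x ∈ U n := by
    rw [Filter.eventually_all_finset]
    exact fun x _ => hUg x
  obtain ⟨n, hn, hn2⟩ := (hf.and_eventually h1).exists
  have h2 := hU n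
  simp only [if_pos hn] at h2
  obtain ⟨x, hx, hUx⟩ := h2
  have h3 := hn2 x hx
  rw [hUx] at h3
  exact h3 rfl

end Pool.Agent.Y136.SG
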